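import Mathlib
import Pool.Agent.H420R3.Top

/-!
# A quasi-Lehmer bound for rational maps with potentially good, purely inseparable reduction

Let `K` be a number field and `f` a rational map of `P^1` over `K`, of degree `p ^ r` with `p` a
prime number, given by two binary forms. Assume that over some finite extension of `K`, in some
coordinates, `f` has good and purely inseparable reduction at a finite place above `p`, that is,
`f` reduces to a map `(a X ^ q + b Y ^ q : c X ^ q + d Y ^ q)` with `a d - b c` nonzero,
`q = p ^ r`. Then the canonical height of every wandering point of degree `D` over `K` is at least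
`exp (- C * sqrt (1 + log D)) / (C * D)`.
-/

set_option autoImplicit false

namespace Pool.Agent.Results.MP_2194ec_nt.InseparableLehmer

open MvPolynomial NumberField Module Filter Topology

/-- A pair `G` of binary forms of degree `q` over the number field `k` has *good, purely
inseparable reduction* at the finite place `v`: all coefficients are `v`-integral, those of the
monomials other than `X ^ q` and `Y ^ q` are in the maximal ideal, and the determinant of the
coefficients of `X ^ q` and `Y ^ q` is a unit at `v`. -/
def GoodInseparable {k : Type} [Field k] [NumberField k] (v : FinitePlace k) (q : ℕ)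
    (G : Fin 2 → MvPolynomial (Fin 2) k) : Prop :=
  (∀ i m, v ((G i).coeff m) ≤ 1) ∧
  (∀ i m, m ≠ Finsupp.single 0 q → m ≠ Finsupp.single 1 q → v ((G i).coeff m) < 1) ∧
  v ((G 0).coeff (Finsupp.single 0 q) * (G 1).coeff (Finsupp.single 1 q) -
    (G 0).coeff (Finsupp.single 1 q) * (G 1).coeff (Finsupp.single 0 q)) = 1

/-- The pair `F` of binary forms over `K` has *potentially good, purely inseparable reduction*
above the prime `p`: there are a number field `K'` containing `K`, an invertible matrix `A` over
`K'` and a pair `G` of binary forms of degree `q` over `K'` with `A ∘ F = G ∘ A`, which has good,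
purely inseparable reduction at a finite place `v` of `K'` above `p`. -/
def PotentiallyInseparable (K : Type) [Field K] [NumberField K] (p q : ℕ)
    (F : Fin 2 → MvPolynomial (Fin 2) K) : Prop :=
  ∃ (K' : Type) (_ : Field K') (_ : NumberField K') (_ : Algebra K K')
    (A : Matrix (Fin 2) (Fin 2) K') (G : Fin 2 → MvPolynomial (Fin 2) K') (v : FinitePlace K'),
    A.det ≠ 0 ∧ (∀ i, (G i).IsHomogeneous q) ∧
    (∀ i, ∑ j, C (A i j) * map (algebraMap K K') (F j) =
      bind₁ (fun k => ∑ l, C (A k l) * X l) (G i)) ∧
    v (p : K') < 1 ∧ GoodInseparable v q G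

/-- the map defined by a pair of forms, on coordinate vectors -/
noncomputable def evalMap {K L : Type} [Field K] [Field L] [Algebra K L]
    (F : Fin 2 → MvPolynomial (Fin 2) K) (y : Fin 2 → L) : Fin 2 → L := fun i => aeval y (F i)

/-- **Main result.** The canonical height of every wandering point with coordinates in `L`
exists and is at least `exp (- C * sqrt (1 + log [L : K])) / (C * [L : K])`. -/
theorem result (K : Type) [Field K] [NumberField K] (p r : ℕ) (hp : p.Prime) (hr : 1 ≤ r)
    (F : Fin 2 → MvPolynomial (Fin 2) K) (_hF : ∀ i, (F i).IsHomogeneous (p ^ r))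
    (hred : PotentiallyInseparable K p (p ^ r) F) :
    ∃ C : ℝ, 0 < C ∧ ∀ (L : Type) [Field L] [NumberField L] [Algebra K L] (x : Fin 2 → L),
      x ≠ 0 →
      (¬ ∃ m n : ℕ, m ≠ n ∧ ∃ c : L, c ≠ 0 ∧ (evalMap F)^[n] x = c • (evalMap F)^[m] x) →
      ∃ h : ℝ,
        Tendsto (fun n : ℕ => Height.logHeight ((evalMap F)^[n] x) /
          ((finrank ℚ L : ℝ) * ((p ^ r : ℕ) : ℝ) ^ n)) atTop (𝓝 h) ∧
        Real.exp (-(C * Real.sqrt (1 + Real.log (finrank K L)))) / (C * finrank K L) ≤ h := by
  obtain ⟨K', i1, i2, i3, A, G, v, hA, hG, hconj, hv, h1, h2, h3⟩ := hred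
  exact H420R3.top hp hr F K' A hA G hG hconj v hv ⟨h1, h2, h3⟩

end Pool.Agent.Results.MP_2194ec_nt.InseparableLehmer
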